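import Pool.Agent.helper50.NPT.Spec3
import Pool.Agent.helper44.NPT.FPC

/-!
# Project NPT (MP_8f32d0_ag), row FVC: Frobenius and Verschiebung for the two descriptions of the cohomology of the Witt vectors
-/

set_option autoImplicit false

namespace NPT

open scoped Classical
open AN
open Pool.Agent.helper53.AU

noncomputable section

theorem FVC_viter {p : ℕ} [Fact p.Prime] {B : Type} [CommRing B] (H : AddSubgroup (WittVector p B))
    (hH : ∀ X ∈ H, WittVector.verschiebung X ∈ H) (n : ℕ) : ∀ X ∈ H, (WittVector.verschiebung)^[n] X ∈ H := by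
  induction n with
  | zero => exact fun X hX => hX
  | succ n ih =>
    intro X hX
    rw [Function.iterate_succ_apply']
    exact hH _ (ih X hX)

theorem FVC_vsub {p : ℕ} [Fact p.Prime] {B : Type} [CommRing B] (n : ℕ) (X Y : WittVector p B) :
    (WittVector.verschiebung)^[n] (X - Y) = (WittVector.verschiebung)^[n] X - (WittVector.verschiebung)^[n] Y := by
  induction n with
  | zero => rfl
  | succ n ih => rw [Function.iterate_succ_apply', Function.iterate_succ_apply', Function.iterate_succ_apply', ih, map_sub]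

theorem FVC_vmap {p : ℕ} [Fact p.Prime] {B B' : Type} [CommRing B] [CommRing B'] (ι : B →+* B') (n : ℕ) (X : WittVector p B) :
    WittVector.map ι ((WittVector.verschiebung)^[n] X) = (WittVector.verschiebung)^[n] (WittVector.map ι X) := by
  induction n with
  | zero => rfl
  | succ n ih => rw [Function.iterate_succ_apply', Function.iterate_succ_apply', ← ih, WittVector.map_verschiebung]

theorem FVC (hWSR : WSR_stmt) (hWNO : WNO_stmt) (hFPB : FPB_stmt) : FVC_stmt := by
  intro p _ k F _ _ _ _ _ hF P Q hPQ ι hι g γ a hK hA n m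
  obtain ⟨hs, hi⟩ := hFPB p k F hF P Q hPQ ι hι g γ a hK hA
  have hN := (hWNO p k g γ a hK).2.1
  have hNV := (hWNO p k g γ a hK).2.2.1
  have hW' : ∀ X ∈ Wc p (RegS {P, Q} : Set F), WittVector.frobenius X ∈ Wc p (RegS {P, Q} : Set F) :=
    (hWSR p F (FPC_sub ({P, Q} : Set (Place k F)))).2.2.1
  have hV' : ∀ X ∈ Wc p (RegS {P, Q} : Set F), WittVector.verschiebung X ∈ Wc p (RegS {P, Q} : Set F) :=
    (hWSR p F (FPC_sub ({P, Q} : Set (Place k F)))).2.2.2.1
  have hmap : ∀ x y : WittVector p F, WittVector.map ι ((WittVector.frobenius)^[n] x - (WittVector.verschiebung)^[m] y) =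
      (WittVector.frobenius)^[n] (WittVector.map ι x) - (WittVector.verschiebung)^[m] (WittVector.map ι y) := by
    intro x y
    rw [map_sub, FPC_imap, FVC_vmap]
  have hmem : ∀ x ∈ Wc p (RegS {P, Q} : Set F), ∀ y ∈ Wc p (RegS {P, Q} : Set F),
      (WittVector.frobenius)^[n] x - (WittVector.verschiebung)^[m] y ∈ Wc p (RegS {P, Q} : Set F) :=
    fun x hx y hy => AddSubgroup.sub_mem _ (FPC_iter _ hW' n x hx) (FVC_viter _ hV' m y hy)
  constructor
  · intro h X
    obtain ⟨x, hx, hXx⟩ := hs X
    obtain ⟨y, hy, hxy⟩ := h x hx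
    have e1 := (hi _ (hmem x hx y hy)).2 hxy
    rw [hmap] at e1
    have e2 := FPC_iter _ hN n _ hXx
    rw [FPC_isub] at e2
    refine ⟨WittVector.map ι y, ?_⟩
    have e3 := AddSubgroup.add_mem _ e2 e1
    rwa [sub_add_sub_cancel] at e3
  · intro h X hX
    obtain ⟨Y, hY⟩ := h (WittVector.map ι X)
    obtain ⟨y, hy, hYy⟩ := hs Y
    refine ⟨y, hy, (hi _ (hmem X hX y hy)).1 ?_⟩
    rw [hmap]
    have e1 := AddSubgroup.add_mem _ hY (FVC_viter _ hNV m _ hYy)
    rw [FVC_vsub] at e1
    rwa [sub_add_sub_cancel] at e1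

end

end NPT
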